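import Pool.Agent.helper12.DD.Spec2

/-! BLC: the sums depend only on the block. -/

set_option autoImplicit false

open Pool.Agent.helper49.Blk

namespace Pool.Agent.DD

lemma BLC_ind {G : Type} [Group G] (M : Ideal (integralClosure ℤ ℂ)) (χ χ' : G → ℂ)
    (h : ∀ g : G, ∃ a ∈ M, omega χ g - omega χ' g = ((a : integralClosure ℤ ℂ) : ℂ))
    (N : Subgroup G) (ψ : N → ℂ) (hi : Induces M N χ ψ) : Induces M N χ' ψ := by
  intro g
  obtain ⟨a, ha, ha'⟩ := h g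
  obtain ⟨b, hb, hb'⟩ := hi g
  refine ⟨b + a, M.add_mem hb ha, ?_⟩
  have e : ((b + a : integralClosure ℤ ℂ) : ℂ) = (b : ℂ) + (a : ℂ) := rfl
  rw [e, ← ha', ← hb']
  ring

theorem BLC : BLC_stmt := by
  intro G E _ _ ι p M χ χ' hb d U
  have h1 : ∀ g : G, ∃ a ∈ M, omega χ g - omega χ' g = ((a : integralClosure ℤ ℂ) : ℂ) := hb
  have h2 : ∀ g : G, ∃ a ∈ M, omega χ' g - omega χ g = ((a : integralClosure ℤ ℂ) : ℂ) := by
    intro g
    obtain ⟨a, ha, ha'⟩ := h1 g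
    refine ⟨-a, M.neg_mem ha, ?_⟩
    have e : ((-a : integralClosure ℤ ℂ) : ℂ) = -(a : ℂ) := rfl
    rw [e, ← ha']
    ring
  have hk : ∀ C : List (Subgroup G), kC p M ι χ C d U = kC p M ι χ' C d U := by
    intro C
    unfold kC
    congr 1
    ext ψ
    constructor
    · rintro ⟨a, b, c, e⟩
      exact ⟨a, b, BLC_ind M χ χ' h1 _ ψ c, e⟩
    · rintro ⟨a, b, c, e⟩
      exact ⟨a, b, BLC_ind M χ' χ h2 _ ψ c, e⟩
  unfold altQ
  simp only [hk]

end Pool.Agent.DD
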