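import Pool.Agent.helper12.DD.Spec2

/-! ZPN: characters of groups with a nontrivial normal `p`-subgroup have positive defect. -/

set_option autoImplicit false

open Pool.Agent.helper49.Blk

namespace Pool.Agent.DD

section
variable {N : Type} [Group N] [Fintype N] {V : Type} [AddCommGroup V] [Module ℂ V]
  [FiniteDimensional ℂ V] (ρ : Representation ℂ N V)

omit [Fintype N] in
lemma ZPN_schur (hirr : ρ.IsIrreducible) (T : Module.End ℂ V)
    (hcomm : ∀ x : N, T * ρ x = ρ x * T) :
    ∃ c : ℂ, T = c • (1 : Module.End ℂ V) ∧ LinearMap.trace ℂ V T = c * ρ.character 1 := by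
  have hsch := Representation.IsIrreducible.algebraMap_intertwiningMap_bijective_of_isAlgClosed
    (ρ := ρ)
  obtain ⟨c, hc⟩ := hsch.2 ⟨T, hcomm⟩
  have hc' : T = c • (1 : Module.End ℂ V) := by
    have h3 := congrArg Representation.IntertwiningMap.toLinearMap hc
    rw [Representation.IntertwiningMap.algebraMap_apply] at h3
    exact h3.symm
  refine ⟨c, hc', ?_⟩
  have h4 := congrArg (LinearMap.trace ℂ V) hc'
  rw [map_smul, smul_eq_mul] at h4
  have h5 : ρ.character 1 = LinearMap.trace ℂ V (1 : Module.End ℂ V) := by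
    unfold Representation.character
    rw [map_one]
  rw [h5, h4]

lemma ZPN_su (hirr : ρ.IsIrreducible) (h0 : ρ.character 1 ≠ 0) (u : N) :
    ∑ y : N, ρ (y * u * y⁻¹) =
      ((Nat.card N : ℂ) * ρ.character u / ρ.character 1) • (1 : Module.End ℂ V) := by
  have hcomm : ∀ b : N, (∑ y : N, ρ (y * u * y⁻¹)) * ρ b = ρ b * ∑ y : N, ρ (y * u * y⁻¹) := by
    intro b
    rw [Finset.sum_mul, Finset.mul_sum]
    symm
    refine Fintype.sum_equiv (Equiv.mulLeft b) _ _ (fun y => ?_)
    rw [← map_mul, ← map_mul]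
    congr 1
    simp only [Equiv.coe_mulLeft]
    group
  obtain ⟨c, hc, ht⟩ := ZPN_schur ρ hirr _ hcomm
  have h1 : LinearMap.trace ℂ V (∑ y : N, ρ (y * u * y⁻¹)) =
      (Nat.card N : ℂ) * ρ.character u := by
    rw [map_sum]
    have h2 : ∀ y : N, LinearMap.trace ℂ V (ρ (y * u * y⁻¹)) = ρ.character u :=
      fun y => Representation.char_conj ρ u y
    rw [Finset.sum_congr rfl fun y _ => h2 y, Finset.sum_const, Finset.card_univ,
      nsmul_eq_mul, Nat.card_eq_fintype_card]
  rw [h1] at ht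
  rw [hc, ht, mul_div_cancel_right₀ _ h0]

lemma ZPN_conv (hirr : ρ.IsIrreducible) (h0 : ρ.character 1 ≠ 0) (u : N) :
    ∑ a : N, ρ.character a⁻¹ * ρ.character (u * a) =
      (Nat.card N : ℂ) / ρ.character 1 * ρ.character u := by
  have hcl : ∀ a b : N, ρ.character (b * a * b⁻¹) = ρ.character a :=
    fun a b => Representation.char_conj ρ a b
  have hcomm : ∀ b : N, (∑ a : N, ρ.character a⁻¹ • ρ a) * ρ b =
      ρ b * ∑ a : N, ρ.character a⁻¹ • ρ a := by
    intro b
    rw [Finset.sum_mul, Finset.mul_sum]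
    symm
    refine Fintype.sum_equiv (MulAut.conj b).toEquiv _ _ (fun a => ?_)
    have e1 : (MulAut.conj b).toEquiv a = b * a * b⁻¹ := rfl
    rw [e1, smul_mul_assoc, mul_smul_comm, ← map_mul, ← map_mul]
    have e2 : (b * a * b⁻¹)⁻¹ = b * a⁻¹ * b⁻¹ := by group
    have e3 : b * a * b⁻¹ * b = b * a := by group
    rw [e2, hcl, e3]
  obtain ⟨c, hc, ht⟩ := ZPN_schur ρ hirr _ hcomm
  have h1 : LinearMap.trace ℂ V (∑ a : N, ρ.character a⁻¹ • ρ a) = (Nat.card N : ℂ) := by
    rw [map_sum, ← (orth ρ ρ hirr hirr).2 rfl]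
    refine Finset.sum_congr rfl fun a _ => ?_
    rw [map_smul, smul_eq_mul, mul_comm]
    rfl
  rw [h1] at ht
  have hc2 : c = (Nat.card N : ℂ) / ρ.character 1 := by
    rw [ht, mul_div_cancel_right₀ _ h0]
  have h2 := congrArg (fun T => LinearMap.trace ℂ V (ρ u * T)) hc
  simp only [Finset.mul_sum, map_sum, mul_smul_comm, map_smul, smul_eq_mul, ← map_mul,
    mul_one] at h2
  rw [← hc2]
  exact h2

end

lemma ZPN_int {V : Type} [AddCommGroup V] [Module ℂ V] [FiniteDimensional ℂ V] [Nontrivial V]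
    (c : ℂ) (h : IsIntegral ℤ (c • (1 : Module.End ℂ V))) : IsIntegral ℤ c := by
  have h6 : (c • (1 : Module.End ℂ V)) = IsScalarTower.toAlgHom ℤ ℂ (Module.End ℂ V) c := by
    rw [IsScalarTower.toAlgHom_apply, Algebra.algebraMap_eq_smul_one]
  rw [h6, isIntegral_algHom_iff] at h
  · exact h
  · intro a b hab
    exact FaithfulSMul.algebraMap_injective ℂ (Module.End ℂ V) hab

theorem ZPN (hNIL : NIL_stmt) : ZPN_stmt := by
  intro p hp M hM hpM N _ _ P hPn hPp hPne ψ hψ n hn
  classical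
  have : Fintype N := Fintype.ofFinite N
  have : Fintype (ConjClasses N) := Fintype.ofFinite _
  haveI : Fact p.Prime := ⟨hp⟩
  have hMp : M.IsPrime := hM.isPrime
  have hn0 : n ≠ 0 := by
    obtain ⟨m, hm, hm'⟩ := ((IRF N).2 ψ hψ).1
    rw [hn] at hm'
    have : n = m := by exact_mod_cast hm'
    omega
  have hnC : (n : ℂ) ≠ 0 := by exact_mod_cast hn0
  have hcl : ∀ g h, ψ (h * g * h⁻¹) = ψ g := ((IRF N).2 ψ hψ).2
  have hint : ∀ g, IsIntegral ℤ (ψ g) := INC N ψ hψ
  obtain ⟨h, hh⟩ := all_DVD N ψ hψ n hn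
  have hN0 : Nat.card N ≠ 0 := Nat.card_pos.ne'
  have hh0 : h ≠ 0 := by
    rintro rfl
    rw [mul_zero] at hh
    exact hN0 hh
  by_contra hcon
  have hph : ¬ p ∣ h := by
    intro hd
    apply hcon
    rw [hh, padicValNat.mul hn0 hh0]
    have := one_le_padicValNat_of_dvd hh0 hd
    omega
  -- `h` is not in `M`
  have hhM : ((h : ℕ) : integralClosure ℤ ℂ) ∉ M := by
    intro hm
    have hcop : Nat.Coprime p h := (Nat.Prime.coprime_iff_not_dvd hp).2 hph
    have hb : IsCoprime ((p : ℕ) : ℤ) ((h : ℕ) : ℤ) := Nat.isCoprime_iff_coprime.2 hcop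
    obtain ⟨a, b, hab⟩ := hb
    apply hMp.ne_top
    rw [Ideal.eq_top_iff_one]
    have e : (1 : integralClosure ℤ ℂ) = ((a : ℤ) : integralClosure ℤ ℂ) * (p : integralClosure ℤ ℂ) +
        ((b : ℤ) : integralClosure ℤ ℂ) * ((h : ℕ) : integralClosure ℤ ℂ) := by
      have := congrArg (fun t : ℤ => (t : integralClosure ℤ ℂ)) hab
      push_cast at this
      rw [this]
    rw [e]
    exact M.add_mem (M.mul_mem_left _ hpM) (M.mul_mem_left _ hm)
  have hhC : (h : ℂ) = (Nat.card N : ℂ) / n := by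
    rw [hh]
    push_cast
    rw [mul_div_cancel_left₀ _ hnC]
  -- the characters as algebraic integers
  set Ψ : N → integralClosure ℤ ℂ := fun g => ⟨ψ g, hint g⟩ with hΨ
  have hΨc : ∀ g, ((Ψ g : integralClosure ℤ ℂ) : ℂ) = ψ g := fun g => rfl
  have hψ0 := hψ
  obtain ⟨V, _, _, _, ρ, hρ, hρψ⟩ := hψ0
  have h10 : ρ.character 1 ≠ 0 := by
    rw [hρψ, hn]
    exact hnC
  have hnt : Nontrivial V := by
    by_contra hV
    rw [not_nontrivial_iff_subsingleton] at hV
    apply h10
    rw [Representation.char_one]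
    have := Module.finrank_zero_of_subsingleton (R := ℂ) (M := V)
    rw [this]
    simp
  -- STEP 1
  have step1 : ∀ x ∈ P, ∀ g : N, Ψ (x * g) - Ψ g ∈ M := by
    intro x hx g
    obtain ⟨m, w, hm, hw⟩ := hNIL N p hp P hPn hPp x hx g
    set Φ := MonoidAlgebra.lift ℤ (Module.End ℂ V) N ρ with hΦ
    have hΦs : ∀ y : N, Φ (MonoidAlgebra.single y (1 : ℤ)) = ρ y := by
      intro y
      rw [hΦ, MonoidAlgebra.lift_single, one_smul]
    set c : ℂ := (Nat.card N : ℂ) * ρ.character (x * g) / ρ.character 1 -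
      (Nat.card N : ℂ) * ρ.character g / ρ.character 1 with hc
    have hz : Φ (∑ y : N, (MonoidAlgebra.single (y * (x * g) * y⁻¹) (1 : ℤ) -
        MonoidAlgebra.single (y * g * y⁻¹) (1 : ℤ))) = c • (1 : Module.End ℂ V) := by
      rw [map_sum]
      simp only [map_sub, hΦs]
      rw [Finset.sum_sub_distrib, ZPN_su ρ hρ h10, ZPN_su ρ hρ h10, hc, sub_smul]
    have hcint : IsIntegral ℤ c := by
      apply ZPN_int (V := V)
      rw [← hz]
      exact (IsIntegral.of_finite ℤ _).map Φ
    have hpC : (p : ℂ) ≠ 0 := by exact_mod_cast hp.ne_zero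
    have hpow : (c ^ m) • (1 : Module.End ℂ V) = (p : ℂ) • Φ w := by
      have h2 := congrArg Φ hw
      rw [map_pow, hz, map_mul, map_natCast, smul_pow, one_pow] at h2
      rw [h2]
      have h3 : ((p : ℕ) : Module.End ℂ V) = (p : ℂ) • (1 : Module.End ℂ V) := by
        rw [← nsmul_one, ← Nat.cast_smul_eq_nsmul ℂ]
      rw [h3, smul_mul_assoc, one_mul]
    have hw2 : Φ w = (c ^ m / p) • (1 : Module.End ℂ V) := by
      rw [div_eq_inv_mul, mul_smul, hpow, smul_smul, inv_mul_cancel₀ hpC, one_smul]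
    have hqint : IsIntegral ℤ (c ^ m / p) := by
      apply ZPN_int (V := V)
      rw [← hw2]
      exact (IsIntegral.of_finite ℤ _).map Φ
    have hcM : (⟨c, hcint⟩ : integralClosure ℤ ℂ) ∈ M := by
      apply hMp.mem_of_pow_mem m
      have e : (⟨c, hcint⟩ : integralClosure ℤ ℂ) ^ m =
          (p : integralClosure ℤ ℂ) * ⟨c ^ m / p, hqint⟩ := by
        apply Subtype.ext
        show c ^ m = (p : ℂ) * (c ^ m / p)
        rw [mul_div_cancel₀ _ hpC]
      rw [e]
      exact M.mul_mem_right _ hpM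
    have e2 : (⟨c, hcint⟩ : integralClosure ℤ ℂ) =
        ((h : ℕ) : integralClosure ℤ ℂ) * (Ψ (x * g) - Ψ g) := by
      apply Subtype.ext
      show c = ((h : ℕ) : ℂ) * (ψ (x * g) - ψ g)
      rw [hc, hhC, hρψ, hn]
      ring
    rw [e2] at hcM
    exact (hMp.mem_or_mem hcM).resolve_left hhM
  -- STEP 2
  have step2 : ∀ u : N, Ψ u ∈ M := by
    intro u
    set F : N → integralClosure ℤ ℂ := fun a => Ψ a⁻¹ * Ψ (u * a) with hF
    have hsum : ∑ a : N, F a = ((h : ℕ) : integralClosure ℤ ℂ) * Ψ u := by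
      apply Subtype.ext
      have h3 := ZPN_conv ρ hρ h10 u
      rw [hρψ, hn, ← hhC] at h3
      have e : ((∑ a : N, F a : integralClosure ℤ ℂ) : ℂ) = ∑ a : N, ψ a⁻¹ * ψ (u * a) := by
        rw [AddSubmonoidClass.coe_finsetSum]
        rfl
      rw [e, h3]
      rfl
    have hinv : ∀ a : N, ∀ x ∈ P, F (a * x) - F a ∈ M := by
      intro a x hx
      have hcm : ∀ s t : N, Ψ (s * t) = Ψ (t * s) := by
        intro s t
        apply Subtype.ext
        show ψ (s * t) = ψ (t * s)
        have h5 := hcl (t * s) s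
        have e5 : s * (t * s) * s⁻¹ = s * t := by group
        rw [e5] at h5
        exact h5
      have h4 : Ψ (a * x)⁻¹ - Ψ a⁻¹ ∈ M := by
        rw [mul_inv_rev]
        exact step1 x⁻¹ (P.inv_mem hx) a⁻¹
      have h5 : Ψ (u * (a * x)) - Ψ (u * a) ∈ M := by
        have e6 : u * (a * x) = (u * a) * x := by group
        rw [e6, hcm (u * a) x]
        exact step1 x hx (u * a)
      have e7 : F (a * x) - F a = (Ψ (a * x)⁻¹ - Ψ a⁻¹) * Ψ (u * (a * x)) +
          Ψ a⁻¹ * (Ψ (u * (a * x)) - Ψ (u * a)) := by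
        simp only [hF]
        ring
      rw [e7]
      exact M.add_mem (M.mul_mem_right _ h4) (M.mul_mem_left _ h5)
    have hPcard : ((Nat.card P : ℕ) : integralClosure ℤ ℂ) ∈ M := by
      obtain ⟨k, hk⟩ := IsPGroup.iff_card.1 hPp
      have hk0 : k ≠ 0 := by
        rintro rfl
        rw [pow_zero] at hk
        exact hPne (Subgroup.card_eq_one.1 hk)
      rw [hk]
      push_cast
      exact Ideal.pow_mem_of_mem M hpM k (Nat.pos_of_ne_zero hk0)
    have hmem : ∑ a : N, F a ∈ M := by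
      have : Fintype (N ⧸ P) := Fintype.ofFinite _
      have : Fintype P := Fintype.ofFinite _
      have hbij : Function.Bijective (fun qx : (N ⧸ P) × P => Quotient.out qx.1 * (qx.2 : N)) := by
        constructor
        · rintro ⟨q, x⟩ ⟨q', x'⟩ hqx
          have hqx' : Quotient.out q * (x : N) = Quotient.out q' * (x' : N) := hqx
          have h12 : (QuotientGroup.mk (Quotient.out q * (x : N)) : N ⧸ P) =
              QuotientGroup.mk (Quotient.out q' * (x' : N)) := by rw [hqx']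
          rw [QuotientGroup.mk_mul_of_mem _ x.2, QuotientGroup.mk_mul_of_mem _ x'.2,
            QuotientGroup.out_eq', QuotientGroup.out_eq'] at h12
          subst h12
          have h13 : (x : N) = (x' : N) := mul_left_cancel hqx'
          rw [Subtype.ext h13]
        · intro a
          have h14 : (Quotient.out (QuotientGroup.mk a : N ⧸ P))⁻¹ * a ∈ P :=
            QuotientGroup.eq.1 (QuotientGroup.out_eq' _)
          exact ⟨(QuotientGroup.mk a, ⟨_, h14⟩), mul_inv_cancel_left _ _⟩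
      have e8 : ∑ a : N, F a = ∑ qx : (N ⧸ P) × P, F (Quotient.out qx.1 * (qx.2 : N)) :=
        (Function.Bijective.sum_comp hbij F).symm
      rw [← Ideal.Quotient.eq_zero_iff_mem, e8, map_sum, Fintype.sum_prod_type]
      refine Finset.sum_eq_zero fun q _ => ?_
      have h9 : ∀ x : P, Ideal.Quotient.mk M (F (Quotient.out q * (x : N))) =
          Ideal.Quotient.mk M (F (Quotient.out q)) := by
        intro x
        rw [Ideal.Quotient.eq]
        exact hinv _ x x.2
      rw [Finset.sum_congr rfl fun x _ => h9 x, Finset.sum_const, Finset.card_univ,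
        nsmul_eq_mul, ← Nat.card_eq_fintype_card]
      have h11 : ((Nat.card P : ℕ) : integralClosure ℤ ℂ ⧸ M) = 0 := by
        have := Ideal.Quotient.eq_zero_iff_mem.2 hPcard
        rw [map_natCast] at this
        exact this
      rw [h11, zero_mul]
    rw [hsum] at hmem
    exact (hMp.mem_or_mem hmem).resolve_left hhM
  -- STEP 3
  have hconj : ∀ g h, IsConj g h → ψ g = ψ h := by
    intro g h hgh
    obtain ⟨c, rfl⟩ := isConj_iff.mp hgh
    exact (hcl g c).symm
  have h1 : ∑ g : N, ψ g * ψ g⁻¹ = (Nat.card N : ℂ) := by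
    have := (orth ρ ρ hρ hρ).2 rfl
    rw [hρψ] at this
    exact this
  have h2 := sum_class (fun g : N => ψ g * ψ g⁻¹) (fun g h hgh => by
    have h3 : IsConj g⁻¹ h⁻¹ := by
      obtain ⟨c, rfl⟩ := isConj_iff.mp hgh
      exact isConj_iff.mpr ⟨c, by group⟩
    rw [hconj g h hgh, hconj _ _ h3])
  rw [h1] at h2
  have h4 : (h : ℂ) = ∑ K : ConjClasses N, omega ψ K.out * ψ (K.out)⁻¹ := by
    rw [hhC, h2, Finset.sum_div]
    refine Finset.sum_congr rfl fun K _ => ?_
    unfold omega
    rw [hn]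
    ring
  apply hhM
  have h5 : ((h : ℕ) : integralClosure ℤ ℂ) = ∑ K : ConjClasses N,
      (⟨omega ψ K.out, (all_INN N).1 ψ hψ _⟩ : integralClosure ℤ ℂ) * Ψ (K.out)⁻¹ := by
    apply Subtype.ext
    rw [AddSubmonoidClass.coe_finsetSum]
    exact h4
  rw [h5]
  exact M.sum_mem fun K _ => M.mul_mem_left _ (step2 _)

end Pool.Agent.DD
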